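import Pool.Agent.W5h86.HD.Main3

set_option autoImplicit false

/-!
# Hartshorne's conjecture follows from the boundary case `n = 2 i + 1` for special hypersurfaces

Let `d + 2 ≥ 2` and `i` be given, and for all `j` with `1 ≤ j ≤ i` a number `m j ≥ 1`. Suppose that
for all these `j` the rational Chow group of codimension `j` cycles of every smooth complex
hypersurface of dimension exactly `2 j + 1` with an equation of the form
`G (x₀ ^ m, x₁ ^ m, ...) = 0`, where `m = m j` and `G` is a form of degree `d + 2`, is generated by
the class of a linear section. Then the rational Chow group of codimension `i` cycles of every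
smooth complex hypersurface of degree `d + 2` and of dimension at least `2 i + 1` is generated by
the class of a linear section. The same holds over all fields of characteristic zero with the
cardinality of the continuum, and more generally for every possibly singular hypersurface of degree
`d + 2` which has a smooth linear section of dimension `2 i + 1`.

For `m = 1` this is the reduction of the conjecture over the complex numbers, in a fixed degree, to
its boundary case `n = 2 i + 1`. For other `m` the hypersurfaces in the hypothesis have the degree
`m (d + 2)` and a large group of automorphisms; so the conjecture follows from its boundary case for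
any set of degrees which contains a multiple of every number.
-/

namespace Pool.Agent.Results.MP_4be043_ag.BoundaryPowers

open MvPolynomial Pool.Agent.W5h86.HC

theorem result (d i : ℕ) (m : ℕ → ℕ) (hm : ∀ j, 1 ≤ j → j ≤ i → 0 < m j)
    (h : ∀ j, 1 ≤ j → j ≤ i → ∀ G : MvPolynomial (Fin (2 * j + 3)) ℂ,
      G.IsHomogeneous (d + 2) → Smooth (expand (m j) G) → LinSpan j (expand (m j) G))
    (N : ℕ) (K : Type) [Field K] [CharZero K] (hK : Cardinal.mk K = Cardinal.continuum)
    (F : MvPolynomial (Fin N) K) (hF : F.IsHomogeneous (d + 2))
    (hs : (Smooth F ∧ 2 * i + 3 ≤ N) ∨ HasSec (2 * i + 3) F) : LinSpan i F := by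
  refine Pool.Agent.W5h86.HD.main_mult hm h hK hF ?_
  rcases hs with ⟨h1, h2⟩ | h1
  · exact hasSec_of_smooth h1 h2
  · exact h1

end Pool.Agent.Results.MP_4be043_ag.BoundaryPowers
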