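import Pool.Agent.W5h94.CU.Final2

set_option autoImplicit false

/-!
# Chow groups of smooth cubic hypersurfaces which contain a linear subspace

Let `X` be a smooth cubic hypersurface over a field of characteristic zero which contains a linear
subspace `Λ` of dimension `r`. Then the rational Chow group of cycles of codimension `i` of `X` is
generated by the class of a linear section for all `i < r / 2`. If `r` has the maximal possible
value `n / 2`, where `n` is the dimension of `X`, then these are the codimensions `i < n / 4`.

The proof uses the projection from `Λ`. Its fibres are quadrics of dimension `r`. By the smoothness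
of `X` the corank of the fibre over a point of codimension `c` is at most `c`.
-/

namespace Pool.Agent.Results.MP_4be043_ag.CubicsWithLinearSubspaces

open MvPolynomial Pool.Agent.W5h86.HC

/-- **Smooth cubic hypersurfaces which contain a linear subspace.** `X` is the hypersurface `F = 0`
in the projective space with `N` homogeneous coordinates, and `Λ` is a linear subspace of the affine
cone of `X` with the dimension `r + 1`. Every subvariety of codimension `i < r / 2` of `X` is a
rational multiple of any linear section of codimension `i` modulo rational equivalence. -/
theorem result {K : Type} [Field K] [CharZero K] {N r i : ℕ} (F : MvPolynomial (Fin N) K)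
    (hF : F.IsHomogeneous 3) (hs : Smooth F) (Λ : Submodule K (Fin N → K))
    (hΛ : Module.finrank K Λ = r + 1) (hΛF : ∀ x ∈ Λ, eval x F = 0) (hi : 2 * i < r) :
    LinSpan i F :=
  Pool.Agent.W5h94.CU.cubic_linSpan hF hs Λ hΛ hΛF hi

end Pool.Agent.Results.MP_4be043_ag.CubicsWithLinearSubspaces
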