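import Pool.Agent.W5h68.HC.Main

/-!
# Chow groups of joins of Fano hypersurfaces

`C` is Voevodsky's category of effective geometric motives over the field `k` of characteristic zero with
rational coefficients, `L = ℚ(1)[2]`, and `Mc X` is the motive with compact supports of `X`. For smooth
projective `X` the groups of morphisms from `Mc X` to `L ^ j` are the Chow groups `A^j(X)`.

The coniveau of hypersurfaces is superadditive for sums of forms in disjoint sets of variables: if the
motives of the affine schemes `f_i = 0` and `f_i = 1` are divisible by `L ^ c_i`, then the motives of the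
affine schemes `f_1 + … + f_r = 0` and `f_1 + … + f_r = 1`, and more generally of all affine schemes defined
by equations between `f_1, …, f_r`, are divisible by `L ^ (c_1 + … + c_r)`, and
`A^j(X)` is generated by the class of a linear section for `j < c_1 + … + c_r`, where `X` is the
projective hypersurface `f_1 + … + f_r = 0`. For smooth forms `f_i` of degree `d` in more than `d` variables
one has `c_i = 1` by Roitman's theorem. So Hartshorne's conjecture is true for
the codimensions `j < r` for smooth hypersurfaces of degree `d` whose equation is a sum of `r` forms in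
disjoint sets of more than `d` variables.
-/

set_option autoImplicit false

open CategoryTheory Limits MonoidalCategory Pretriangulated AlgebraicGeometry MvPolynomial
  Pool.Agent.Y116.UV Pool.Agent.W5h68.PJ Pool.Agent.W5h68.HC

universe v u

namespace Pool.Agent.Results.MP_4be043_ag.JoinsOfFanoHypersurfaces

/-- **Chow groups of projective schemes given by equations between forms in disjoint variables.**

(1) Let `f_1, …, f_r` be forms of degrees `w_1, …, w_r > 0` in disjoint sets of variables, such that the
motives of `f_i = 0` and `f_i = 1` are divisible by `L ^ c_i`. Then the motive of every closed subscheme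
`h(f_1, …, f_r) = 0`, `h ∈ S`, of the affine space is divisible by `L ^ c`, `c = c_1 + … + c_r`. If the
elements of `S` are homogeneous of positive degrees for the weights `w_i`, then for every closed
subscheme `X` of the projective space with the support `h(f_1, …, f_r) = 0`, `h ∈ S`, and all `j < c` the
rank of `A^j(X)` is at most the rank of `A^0(X)`.

(2) In particular let `f_1, …, f_r` be forms of the same degree `d > 0` in disjoint sets of variables,
such that those with `i ∈ T` are smooth and have more than `d` variables. Let `X` be the projective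
hypersurface `f_1 + … + f_r = 0`, or more generally a closed subscheme of the projective space with the
support `h(f_1, …, f_r) = 0`, `h ∈ S`, for a set `S` of forms of positive degrees in `r` variables. Then
the rank of `A^j(X)` is at most the rank of `A^0(X)` for all `j < #T`. -/
theorem result {k : Type} [Field k] [CharZero k] {C : Type u} [Category.{v} C] [MonoidalCategory C]
    [SymmetricCategory C] [Preadditive C] [Linear ℚ C] [HasZeroObject C] [HasShift C ℤ]
    [∀ n : ℤ, (shiftFunctor C n).Additive] [Pretriangulated C] {L : C} {Mc : Sch k → C}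
    (hL : IsEffective L) (hC : Cancel L) (hM : IsCompact L Mc) :
    (∀ (r : ℕ) (σ : Fin r → Type) (_ : ∀ i, Finite (σ i)) (f : ∀ i, MvPolynomial (σ i) k)
      (w c : Fin r → ℕ), (∀ i, 0 < w i) → (∀ i, (f i).IsHomogeneous (w i)) →
      (∀ i, Block L Mc (f i) (c i)) →
      (∀ S : Set (MvPolynomial (Fin r) k), Dv L (∑ i, c i) (Mc (aff k (MvPolynomial (Σ i, σ i) k ⧸
        Ideal.span ((aeval fun i => rename (Sigma.mk i) (f i)) '' S))))) ∧
      ∀ S : Set (MvPolynomial (Fin r) k), (∀ h ∈ S, ∃ m, 0 < m ∧ IsWeightedHomogeneous w h m) →
        ∀ (X : Sch k) (i : X ⟶ space k (Σ i, σ i)), FT True X →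
        Supp ((aeval fun i => rename (Sigma.mk i) (f i)) '' S) i → RankLe L Mc (∑ i, c i) X) ∧
    (Roitman L Mc → ∀ (r d : ℕ) (σ : Fin r → Type) (_ : ∀ i, Finite (σ i))
      (f : ∀ i, MvPolynomial (σ i) k) (T : Finset (Fin r)), 0 < d →
      (∀ i, (f i).IsHomogeneous d) → (∀ i ∈ T, SmoothForm (f i) ∧ d < Nat.card (σ i)) →
      (∀ (X : Sch k) (i : X ⟶ space k (Σ i, σ i)), FT True X →
        Supp {∑ i, rename (Sigma.mk i) (f i)} i → RankLe L Mc T.card X) ∧
      ∀ S : Set (MvPolynomial (Fin r) k), (∀ h ∈ S, ∃ m, 0 < m ∧ h.IsHomogeneous m) →
        ∀ (X : Sch k) (i : X ⟶ space k (Σ i, σ i)), FT True X →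
        Supp ((aeval fun i => rename (Sigma.mk i) (f i)) '' S) i → RankLe L Mc T.card X) := by
  refine ⟨fun r σ _ f w c hw hf hc => ⟨fun S => affine_main hL hM σ f w hw hf c hc S,
    fun S hS X i hX hi => proj_main hL hM hC σ f w hw hf c hc S hS X i hX hi⟩,
    fun hR r d σ _ f T hd hf hT => ?_⟩
  have key := roitman_main hL hM hC hR σ f T hd hf hT
  refine ⟨fun X i hX hi => ?_, key⟩
  refine key {∑ j, MvPolynomial.X j} ?_ X i hX ?_
  · intro h hh
    rw [Set.mem_singleton_iff.mp hh]
    exact ⟨1, one_pos, sum_hom⟩
  · rw [sum_image]
    exact hi

end Pool.Agent.Results.MP_4be043_ag.JoinsOfFanoHypersurfaces
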