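import Pool.Agent.W5h77.KH.Equiv2

set_option autoImplicit false

/-!
# Hartshorne's conjecture is equivalent to weak bounds for the ranks of Chow groups
-/

namespace Pool.Agent.Results.MP_4be043_ag.WeakBounds

open MvPolynomial Pool.Agent.W5h77.KH

/-- Let `k` be a field of characteristic zero which contains all roots of unity (for example the
field of complex numbers), let `d ≥ 2`, and let `i ≤ n` and `r` be given. The following are
equivalent:

1. the rank in codimension `i` is at most `r` for all smooth hypersurfaces of degree `d` and
dimension `n`;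

2. for some `a ≥ 1` and `t` the rank in codimension `i + t` is less than `(a d - 1) ^ t (r + 1)`
for all smooth hypersurfaces of degree `a d` and dimension `n + 2 t`;

3. for every smooth hypersurface `F = 0` of degree `d` and dimension `n` there are `t`, `m` and a
hypersurface `H = 0` of dimension `n + 2 t` above it, with multiplicity `m`, such that the rank in
codimension `i + t` of `H = 0` is less than `m (r + 1)`. -/
theorem result {k : Type} [Field k] [CharZero k]
    (hζ : ∀ m : ℕ, 0 < m → ∃ ζ : k, IsPrimitiveRoot ζ m) {d : ℕ} (hd : 2 ≤ d) {n i : ℕ}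
    (hi : i ≤ n) (r : ℕ) : List.TFAE
      [RankBound k d n i r,
        ∃ a t b : ℕ, 1 ≤ a ∧ b < (a * d - 1) ^ t * (r + 1) ∧
          RankBound k (a * d) (n + 2 * t) (i + t) b,
        ∀ F : MvPolynomial (Fin (n + 2)) k, F.IsHomogeneous d →
          Pool.Agent.W5h86.HC.Smooth F →
          ∃ (t m b : ℕ) (H : MvPolynomial (Fin (n + 2 + 2 * t)) k),
            Above F t m H ∧ b < m * (r + 1) ∧ RankLe k H (n - i + t) b] :=
  tfae' hζ hd hi r

end Pool.Agent.Results.MP_4be043_ag.WeakBounds
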